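import Pool.Agent.H95.ND.Targets

/-!
# Module FCI of Part D of MP_57ddd5_pr: independence of the Fubini conditions of the scales
-/

open MeasureTheory ProbabilityTheory
open scoped ENNReal

namespace Pool.Agent.H66.PD

open Pool.Agent.H99.NS Pool.Agent.H22.LPP Pool.Agent.H95.INS Pool.Agent.H76.ND Pool.Agent.H95.ND
open Pool.Agent.H97.NF (PEnv eA eB PN)

theorem ann_disjoint {A : ℤ} (hA : 1 ≤ A) {j k : ℕ} (h : j < k) :
    Disjoint (Ann A j) (Ann A k) := by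
  rw [Set.disjoint_left]
  rintro x ⟨_, _, _, h1⟩ ⟨_, _, h2, _⟩
  have h3 : (16 : ℤ) ^ (j + 1) ≤ 16 ^ k := pow_le_pow_right₀ (by norm_num) h
  have h4 : A * 16 ^ (j + 1) ≤ A * 16 ^ k := mul_le_mul_of_nonneg_left h3 (by omega)
  have h5 : 16 * A * 16 ^ j = A * 16 ^ (j + 1) := by ring
  rw [h5] at h1
  exact absurd (h1.trans_le (h4.trans h2)) (lt_irrefl _)

theorem pf_FCI (h1 : T_FCD) : T_FCI := by
  intro c Xc S x hx hA hS hp
  have he : {ω | ∀ k ∈ S, ¬ FC (dk c Xc k) ω} = ⋂ k ∈ S, {ω | ¬ FC (dk c Xc k) ω} := by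
    ext ω
    simp only [Set.mem_ofPred_eq, Set.mem_iInter]
  rw [he, measure_biInter_of_depOn c.q S (fun k => Ann c.A k)
    (fun k => {ω | ¬ FC (dk c Xc k) ω})]
  · calc ∏ k ∈ S, PE c.q {ω | ¬ FC (dk c Xc k) ω} ≤ ∏ _k ∈ S, ENNReal.ofReal x :=
          Finset.prod_le_prod' hp
      _ = ENNReal.ofReal (x ^ S.card) := by
          rw [Finset.prod_const, ENNReal.ofReal_pow hx]
  · intro k hk
    exact (h1 c Xc k (hS k hk)).2.2.compl
  · intro k hk ω ω' h
    have h2 : FC (dk c Xc k) ω = FC (dk c Xc k) ω' := (h1 c Xc k (hS k hk)).1 ω ω' h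
    simp only [Set.mem_ofPred_eq]
    rw [h2]
  · intro i _ j _ hij
    rcases lt_or_gt_of_ne hij with h | h
    · exact ann_disjoint hA h
    · exact (ann_disjoint hA h).symm

end Pool.Agent.H66.PD
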